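import Pool.Agent.H95.FC.Targets

/-!
`MP_52e316_nt`, fourth moment of the complete family: row AGSU (the number of the classes and the
number of the lines).
-/

set_option autoImplicit false

open MeasureTheory Set Filter NumberField
open scoped Real nonZeroDivisors Matrix MatrixGroups

namespace Pool.Agent.H40.FC

open Pool.Agent.H31.CN Pool.Agent.H89.FM Pool.Agent.H61.FM Pool.Agent.H89.FC Pool.Agent.H95.FC

theorem pf_GSU (hPAR : Pool.Agent.H95.FC.T_PAR) (hPRN : Pool.Agent.H95.CF.T_PRN) :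
    Pool.Agent.H95.FC.T_GSU := by
  classical
  intro K _ _ D f hIQ hf R b T W hDF G _ _ cl hG
  have key : ∀ g : G, ∃ x ∈ Finset.univ.sigma T, cl (b x.1 x.2 : Ideal (𝓞 K)) = g := by
    intro g
    obtain ⟨J₀, hJ, rfl⟩ := hG.sur g
    let J : (Ideal (𝓞 K))⁰ := ⟨J₀, mem_nonZeroDivisors_iff_ne_zero.2 hJ.1⟩
    set c : ClassGroup (𝓞 K) := (ClassGroup.mk0 J)⁻¹ with hc
    have hVB := hDF.vb c
    have hLT := hDF.lt c
    have h1 : ClassGroup.mk0 J = (ClassGroup.mk0 (R.I c))⁻¹ := by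
      rw [R.cl c, hc, inv_inv]
    obtain ⟨u, hu0, hu⟩ := hVB.sur J h1
    have hne : ∀ v, ((b c v : (Ideal (𝓞 K))⁰) : Ideal (𝓞 K)) ≠ ⊥ := fun v =>
      mem_nonZeroDivisors_iff_ne_zero.1 (b c v).2
    have hUP : ∀ v, v ≠ 0 → (Uv f (R.Q c) v ↔ Pool.Agent.H95.CF.Pr K f (b c v)) := by
      intro v hv
      rw [hPRN K f (b c v) (hne v)]
      unfold Uv
      rw [← hVB.nrm v hv]
      exact Nat.isCoprime_iff_coprime
    have hUu : Uv f (R.Q c) u := by
      rw [hUP u hu0, hu]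
      exact hJ
    obtain ⟨V, hV, hVu⟩ := hLT.ex u hUu
    have hV0 : V ≠ 0 := by
      rintro rfl
      have := hLT.one 0 hV
      simp [det] at this
    obtain ⟨a, n, hn, ha, hn', -, hab⟩ := hPAR K R.σ f (R.I c) (R.α c) (R.β c) (R.Q c) (b c) hf
      (R.ob c) hVB V u hV0 hu0 (hLT.un V hV) hUu hVu
    refine ⟨⟨c, V⟩, Finset.mem_sigma.2 ⟨Finset.mem_univ _, hV⟩, ?_⟩
    have h2 := (hG.eqv (b c V) (b c u) ((hUP V hV0).1 (hLT.un V hV)) ((hUP u hu0).1 hUu)).2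
      ⟨a, n, ha, hn', hab⟩
    rw [hu] at h2
    exact h2
  have := Fintype.ofFinite G
  rw [Nat.card_eq_fintype_card, ← Finset.card_sigma, ← Finset.card_univ]
  exact Finset.card_le_card_of_surjOn (fun x => cl (b x.1 x.2 : Ideal (𝓞 K))) fun g _ => by
    obtain ⟨x, hx, h⟩ := key g
    exact ⟨x, hx, h⟩

end Pool.Agent.H40.FC
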